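import Mathlib

/-!
# Soluble and absolutely simple group-theoretic numbers

`A₅` has subgroups of the nine orders `1, 2, 3, 4, 5, 6, 10, 12, 60`, all but the trivial one and
`A₅` being non-normal. If `B` is a group of order `7^d` whose non-normal subgroups have exactly
the orders `7, ..., 7^e`, then `ie (A₅ × B) = 7 (d + 1) + 2 e`. With cyclic `B` (`e = 0`) and the
products of a modular group of order `7^(b+3)` and a cyclic group of order `7^m` (`e = m + 1`)
every `k ≥ 75` is `ie` of a group that is neither soluble nor simple.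
-/

namespace Pool.Agent.Results.MP_927db0_al.FiniteSets


/-- The number of positive integers `n` such that `G` has a non-normal subgroup of order `n`. -/
noncomputable def ie (G : Type) [Group G] : ℕ := {n : ℕ | ∃ H : Subgroup G, Nat.card H = n ∧ ¬ H.Normal}.ncard

/-- The alternating group of degree five. -/
abbrev A : Type := alternatingGroup (Fin 5)

lemma card_A : Nat.card A = 60 := by
  have h := two_mul_nat_card_alternatingGroup (α := Fin 5)
  rw [Nat.card_perm, Nat.card_fin] at h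
  have h2 : 2 * Nat.card A = 120 := h
  omega

lemma simple_A : IsSimpleGroup A := alternatingGroup.isSimpleGroup (by simp)

/-- The orders of the non-normal subgroups of `A₅`. -/
def U : Finset ℕ := {2, 3, 4, 5, 6, 10, 12}

lemma index_ge (V : Subgroup A) (hV : V ≠ ⊤) : 5 ≤ V.index := by
  classical
  by_contra hcon
  push Not at hcon
  have hs := simple_A
  have hn : V.normalCore = ⊥ := by
    rcases hs.eq_bot_or_eq_top_of_normal V.normalCore inferInstance with h | h
    · exact h
    · exact absurd (top_le_iff.mp (h ▸ V.normalCore_le)) hV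
  have h1 : Nat.card A ∣ (V.index).factorial := by
    have hinj : Function.Injective (MulAction.toPermHom A (A ⧸ V)) := by
      rw [← MonoidHom.ker_eq_bot_iff, ← Subgroup.normalCore_eq_ker, hn]
    have := Subgroup.card_dvd_of_injective _ hinj
    rw [Nat.card_perm] at this
    exact this
  rw [card_A] at h1
  have h2 := Nat.le_of_dvd (Nat.factorial_pos _) h1
  have h3 : V.index.factorial ≤ Nat.factorial 4 := Nat.factorial_le (by omega)
  have h4 : Nat.factorial 4 = 24 := rfl
  omega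

lemma card_sub_A (V : Subgroup A) (hV : V ≠ ⊤) (hV' : V ≠ ⊥) : Nat.card V ∈ U := by
  have h1 := Subgroup.card_mul_index V
  rw [card_A] at h1
  have h2 := index_ge V hV
  have h3 : Nat.card V ∣ 60 := ⟨_, h1.symm⟩
  have h4 : Nat.card V ≠ 1 := fun h => hV' (Subgroup.card_eq_one.mp h)
  have h5 : Nat.card V * 5 ≤ 60 := by
    rw [← h1]; exact Nat.mul_le_mul_left _ h2
  have h6 : 0 < Nat.card V := Nat.card_pos
  have h7 : Nat.card V ≤ 12 := by omega
  unfold U
  interval_cases h : Nat.card V <;> simp <;> omega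

/-- A permutation in `A₅`. -/
def el (s : Equiv.Perm (Fin 5)) (h : Equiv.Perm.sign s = 1) : A := ⟨s, h⟩

lemma ex5 : ∃ V : Subgroup A, Nat.card V = 5 := by
  have : Fact (Nat.Prime 5) := ⟨by norm_num⟩
  obtain ⟨V, hV⟩ := Sylow.exists_subgroup_card_pow_prime (G := A) 5 (n := 1) (by rw [card_A]; norm_num)
  exact ⟨V, by simpa using hV⟩

lemma ex3 : ∃ V : Subgroup A, Nat.card V = 3 := by
  have : Fact (Nat.Prime 3) := ⟨by norm_num⟩
  obtain ⟨V, hV⟩ := Sylow.exists_subgroup_card_pow_prime (G := A) 3 (n := 1) (by rw [card_A]; norm_num)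
  exact ⟨V, by simpa using hV⟩

lemma ex2 : ∃ V : Subgroup A, Nat.card V = 2 := by
  have : Fact (Nat.Prime 2) := ⟨by norm_num⟩
  obtain ⟨V, hV⟩ := Sylow.exists_subgroup_card_pow_prime (G := A) 2 (n := 1) (by rw [card_A]; norm_num)
  exact ⟨V, by simpa using hV⟩

lemma ex4 : ∃ V : Subgroup A, Nat.card V = 4 := by
  have : Fact (Nat.Prime 2) := ⟨by norm_num⟩
  obtain ⟨V, hV⟩ := Sylow.exists_subgroup_card_pow_prime (G := A) 2 (n := 2) (by rw [card_A]; norm_num)
  exact ⟨V, by simpa using hV⟩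

/-- The stabilizer of the point `4`. -/
def V12 : Subgroup A where
  carrier := {s | (s : Equiv.Perm (Fin 5)) 4 = 4}
  one_mem' := rfl
  mul_mem' := by
    intro a b ha hb
    simp only [Set.mem_ofPred_eq] at ha hb ⊢
    rw [Subgroup.coe_mul, Equiv.Perm.mul_apply, hb, ha]
  inv_mem' := by
    intro a ha
    simp only [Set.mem_ofPred_eq] at ha ⊢
    rw [Subgroup.coe_inv, Equiv.Perm.inv_eq_iff_eq, ha]

/-- The setwise stabilizer of `{3, 4}`. -/
def V6 : Subgroup A where
  carrier := {s | (((s : Equiv.Perm (Fin 5)) 3 = 3 ∨ (s : Equiv.Perm (Fin 5)) 3 = 4) ∧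
    ((s : Equiv.Perm (Fin 5)) 4 = 3 ∨ (s : Equiv.Perm (Fin 5)) 4 = 4))}
  one_mem' := by simp
  mul_mem' := by
    intro a b ha hb
    simp only [Set.mem_ofPred_eq] at ha hb ⊢
    rw [Subgroup.coe_mul, Equiv.Perm.mul_apply, Equiv.Perm.mul_apply]
    rcases hb.1 with h | h <;> rcases hb.2 with h' | h' <;> rw [h, h'] <;> tauto
  inv_mem' := by
    intro a ha
    simp only [Set.mem_ofPred_eq] at ha ⊢
    rw [Subgroup.coe_inv, Equiv.Perm.inv_eq_iff_eq, Equiv.Perm.inv_eq_iff_eq, Equiv.Perm.inv_eq_iff_eq, Equiv.Perm.inv_eq_iff_eq]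
    have hne : (a : Equiv.Perm (Fin 5)) 3 ≠ (a : Equiv.Perm (Fin 5)) 4 := fun h => by
      have := (a : Equiv.Perm (Fin 5)).injective h
      exact absurd this (by decide)
    rcases ha.1 with h | h <;> rcases ha.2 with h' | h' <;> rw [h, h'] at hne ⊢ <;> simp at hne ⊢

/-- The five-cycle. -/
def cyc : Equiv.Perm (Fin 5) := finRotate 5

/-- The normalizer of a five-cycle. -/
def V10 : Subgroup A where
  carrier := {s | (s : Equiv.Perm (Fin 5)) * cyc * (s : Equiv.Perm (Fin 5))⁻¹ = cyc ∨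
    (s : Equiv.Perm (Fin 5)) * cyc * (s : Equiv.Perm (Fin 5))⁻¹ = cyc⁻¹}
  one_mem' := by simp
  mul_mem' := by
    intro a b ha hb
    simp only [Set.mem_ofPred_eq] at ha hb ⊢
    have h1 : ((a * b : A) : Equiv.Perm (Fin 5)) * cyc * ((a * b : A) : Equiv.Perm (Fin 5))⁻¹ =
        (a : Equiv.Perm (Fin 5)) * ((b : Equiv.Perm (Fin 5)) * cyc * (b : Equiv.Perm (Fin 5))⁻¹) * (a : Equiv.Perm (Fin 5))⁻¹ := by
      rw [Subgroup.coe_mul]; group
    have h2 : (a : Equiv.Perm (Fin 5)) * cyc⁻¹ * (a : Equiv.Perm (Fin 5))⁻¹ = ((a : Equiv.Perm (Fin 5)) * cyc * (a : Equiv.Perm (Fin 5))⁻¹)⁻¹ := by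
      group
    rw [h1]
    rcases hb with h | h <;> rw [h]
    · exact ha
    · rw [h2]
      rcases ha with h' | h' <;> rw [h'] <;> simp
  inv_mem' := by
    intro a ha
    simp only [Set.mem_ofPred_eq] at ha ⊢
    rw [Subgroup.coe_inv, inv_inv]
    rcases ha with h | h
    · left
      nth_rewrite 1 [← h]
      group
    · right
      have h' : cyc = ((a : Equiv.Perm (Fin 5)) * cyc * (a : Equiv.Perm (Fin 5))⁻¹)⁻¹ := by rw [h, inv_inv]
      nth_rewrite 1 [h']
      group

set_option maxRecDepth 100000 in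
lemma card_V12 : Nat.card V12 = 12 := by
  have : Nat.card V12 = ((Finset.univ : Finset A).filter (fun s : A => (s : Equiv.Perm (Fin 5)) 4 = 4)).card := by
    rw [← Fintype.card_subtype, ← Nat.card_eq_fintype_card]
    rfl
  rw [this]
  decide

set_option maxRecDepth 100000 in
lemma card_V6 : Nat.card V6 = 6 := by
  have : Nat.card V6 = ((Finset.univ : Finset A).filter (fun s : A => (((s : Equiv.Perm (Fin 5)) 3 = 3 ∨ (s : Equiv.Perm (Fin 5)) 3 = 4) ∧
    ((s : Equiv.Perm (Fin 5)) 4 = 3 ∨ (s : Equiv.Perm (Fin 5)) 4 = 4)))).card := by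
    rw [← Fintype.card_subtype, ← Nat.card_eq_fintype_card]
    rfl
  rw [this]
  decide

set_option maxRecDepth 100000 in
lemma card_V10 : Nat.card V10 = 10 := by
  have : Nat.card V10 = ((Finset.univ : Finset A).filter (fun s : A => (s : Equiv.Perm (Fin 5)) * cyc * (s : Equiv.Perm (Fin 5))⁻¹ = cyc ∨
    (s : Equiv.Perm (Fin 5)) * cyc * (s : Equiv.Perm (Fin 5))⁻¹ = cyc⁻¹)).card := by
    rw [← Fintype.card_subtype, ← Nat.card_eq_fintype_card]
    rfl
  rw [this]
  decide

lemma ex_U (u : ℕ) (hu : u ∈ U) : ∃ V : Subgroup A, Nat.card V = u := by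
  simp only [U, Finset.mem_insert, Finset.mem_singleton] at hu
  rcases hu with rfl | rfl | rfl | rfl | rfl | rfl | rfl
  · exact ex2
  · exact ex3
  · exact ex4
  · exact ex5
  · exact ⟨V6, card_V6⟩
  · exact ⟨V10, card_V10⟩
  · exact ⟨V12, card_V12⟩


section prod

variable {B : Type} [Group B] [Finite B]

omit [Finite B] in
lemma fst_mem (hcop : Nat.Coprime (Nat.card A) (Nat.card B)) (W : Subgroup (A × B)) (a : A) (b : B)
    (h : (a, b) ∈ W) : (a, (1 : B)) ∈ W := by
  obtain ⟨r, hr1, hr2⟩ := Nat.chineseRemainder hcop 1 0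
  have e1 : a ^ r = a := by
    rw [← pow_mod_natCard, hr1, pow_mod_natCard, pow_one]
  have e2 : b ^ r = 1 := by
    rw [← pow_mod_natCard, hr2, pow_mod_natCard, pow_zero]
  have := pow_mem h r
  rw [Prod.pow_mk, e1, e2] at this
  exact this

omit [Finite B] in
lemma snd_mem (hcop : Nat.Coprime (Nat.card A) (Nat.card B)) (W : Subgroup (A × B)) (a : A) (b : B)
    (h : (a, b) ∈ W) : ((1 : A), b) ∈ W := by
  have h1 := mul_mem (inv_mem (fst_mem hcop W a b h)) h
  simpa using h1

omit [Finite B] in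
lemma eq_prod (hcop : Nat.Coprime (Nat.card A) (Nat.card B)) (W : Subgroup (A × B)) :
    W = (W.map (MonoidHom.fst A B)).prod (W.map (MonoidHom.snd A B)) := by
  ext ⟨a, b⟩
  rw [Subgroup.mem_prod]
  constructor
  · intro h
    exact ⟨⟨(a, b), h, rfl⟩, ⟨(a, b), h, rfl⟩⟩
  · rintro ⟨⟨⟨a', b'⟩, h, ha⟩, ⟨⟨a'', b''⟩, h', hb⟩⟩
    simp only [MonoidHom.coe_fst, MonoidHom.coe_snd] at ha hb
    subst ha hb
    have := mul_mem (fst_mem hcop W _ _ h) (snd_mem hcop W _ _ h')
    simpa using this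

omit [Finite B] in
lemma normal_left {V₁ : Subgroup A} {V₂ : Subgroup B} (h : (V₁.prod V₂).Normal) : V₁.Normal := by
  constructor
  intro v hv g
  have h1 : ((v, 1) : A × B) ∈ V₁.prod V₂ := ⟨hv, one_mem _⟩
  have h2 := h.conj_mem _ h1 (g, 1)
  exact h2.1

omit [Finite B] in
lemma normal_right {V₁ : Subgroup A} {V₂ : Subgroup B} (h : (V₁.prod V₂).Normal) : V₂.Normal := by
  constructor
  intro v hv g
  have h1 : ((1, v) : A × B) ∈ V₁.prod V₂ := ⟨one_mem _, hv⟩
  have h2 := h.conj_mem _ h1 (1, g)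
  exact h2.2

omit [Finite B] in
lemma card_prod_sub (V₁ : Subgroup A) (V₂ : Subgroup B) : Nat.card (V₁.prod V₂) = Nat.card V₁ * Nat.card V₂ := by
  rw [Nat.card_congr (Subgroup.prodEquiv V₁ V₂).toEquiv, Nat.card_prod]

lemma inj_pow {u u' j j' : ℕ} (hu : ¬ 7 ∣ u) (hu' : ¬ 7 ∣ u') (h : u * 7 ^ j = u' * 7 ^ j') : u = u' ∧ j = j' := by
  wlog hle : j ≤ j' generalizing u u' j j'
  · obtain ⟨h1, h2⟩ := this hu' hu h.symm (by omega)
    exact ⟨h1.symm, h2.symm⟩
  obtain ⟨i, rfl⟩ := Nat.exists_eq_add_of_le hle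
  rw [pow_add, mul_comm (7 ^ j), ← mul_assoc] at h
  have h1 : u = u' * 7 ^ i := Nat.eq_of_mul_eq_mul_right (by positivity) h
  rcases Nat.eq_zero_or_pos i with h0 | h0
  · subst h0
    simpa using h1
  · exfalso
    apply hu
    rw [h1]
    exact Dvd.dvd.mul_left (dvd_pow_self 7 h0.ne') u'

theorem ie_prod (d e : ℕ) (hB : Nat.card B = 7 ^ d)
    (he : ∀ n, (∃ V : Subgroup B, Nat.card V = n ∧ ¬ V.Normal) ↔ ∃ j, 1 ≤ j ∧ j ≤ e ∧ n = 7 ^ j) :
    ie (A × B) = 7 * (d + 1) + 2 * e := by
  classical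
  have hcop : Nat.Coprime (Nat.card A) (Nat.card B) := by
    rw [card_A, hB]
    exact Nat.Coprime.pow_right d (by norm_num)
  have hs := simple_A
  let Pset : Finset (ℕ × ℕ) := (U ×ˢ Finset.range (d + 1)) ∪ (({1, 60} : Finset ℕ) ×ˢ Finset.Icc 1 e)
  have hS : {n : ℕ | ∃ W : Subgroup (A × B), Nat.card W = n ∧ ¬ W.Normal} =
      ((Pset.image (fun p : ℕ × ℕ => p.1 * 7 ^ p.2) : Finset ℕ) : Set ℕ) := by
    ext n
    simp only [Set.mem_ofPred_eq, Finset.coe_image, Set.mem_image, Finset.mem_coe]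
    constructor
    · rintro ⟨W, hW, hWn⟩
      set V₁ := W.map (MonoidHom.fst A B) with hV1
      set V₂ := W.map (MonoidHom.snd A B) with hV2
      have hWe : W = V₁.prod V₂ := eq_prod hcop W
      rw [hWe, card_prod_sub] at hW
      rw [hWe] at hWn
      have h2 : Nat.card V₂ ∣ 7 ^ d := hB ▸ Subgroup.card_subgroup_dvd_card V₂
      obtain ⟨j, hj, hj2⟩ := (Nat.dvd_prime_pow (by norm_num)).mp h2
      by_cases hbot : V₁ = ⊥
      · have hn2 : ¬ V₂.Normal := by
          intro hn
          apply hWn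
          rw [hbot]
          exact Subgroup.prod_normal ⊥ V₂
        obtain ⟨i, hi1, hi2, hi⟩ := (he (Nat.card V₂)).mp ⟨V₂, rfl, hn2⟩
        refine ⟨(1, i), ?_, ?_⟩
        · simp only [Pset, Finset.mem_union, Finset.mem_product, Finset.mem_insert, Finset.mem_singleton, Finset.mem_Icc]
          right
          exact ⟨Or.inl trivial, hi1, hi2⟩
        · rw [← hW, hbot, hi]
          simp
      · by_cases htop : V₁ = ⊤
        · have hn2 : ¬ V₂.Normal := by
            intro hn
            apply hWn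
            rw [htop]
            exact Subgroup.prod_normal ⊤ V₂
          obtain ⟨i, hi1, hi2, hi⟩ := (he (Nat.card V₂)).mp ⟨V₂, rfl, hn2⟩
          refine ⟨(60, i), ?_, ?_⟩
          · simp only [Pset, Finset.mem_union, Finset.mem_product, Finset.mem_insert, Finset.mem_singleton, Finset.mem_Icc]
            right
            exact ⟨Or.inr trivial, hi1, hi2⟩
          · rw [← hW, htop, hi, Subgroup.card_top, card_A]
        · refine ⟨(Nat.card V₁, j), ?_, ?_⟩
          · simp only [Pset, Finset.mem_union, Finset.mem_product, Finset.mem_range]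
            left
            exact ⟨card_sub_A V₁ htop hbot, by omega⟩
          · rw [← hW, hj2]
    · rintro ⟨⟨u, j⟩, hp, rfl⟩
      simp only [Pset, Finset.mem_union, Finset.mem_product, Finset.mem_range] at hp
      simp only
      rcases hp with ⟨hu, hj⟩ | ⟨hu, hj⟩
      · obtain ⟨V₁, hV1⟩ := ex_U u hu
        have : Fact (Nat.Prime 7) := ⟨by norm_num⟩
        obtain ⟨V₂, hV2⟩ := Sylow.exists_subgroup_card_pow_prime (G := B) 7 (n := j)
          (by rw [hB]; exact pow_dvd_pow 7 (by omega))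
        refine ⟨V₁.prod V₂, by rw [card_prod_sub, hV1, hV2], fun hn => ?_⟩
        have hn1 := normal_left hn
        rcases hs.eq_bot_or_eq_top_of_normal V₁ hn1 with h | h
        · rw [h, Subgroup.card_bot] at hV1
          subst hV1
          exact absurd hu (by decide)
        · rw [h, Subgroup.card_top, card_A] at hV1
          subst hV1
          exact absurd hu (by decide)
      · rw [Finset.mem_Icc] at hj
        obtain ⟨V₂, hV2, hn2⟩ := (he (7 ^ j)).mpr ⟨j, hj.1, hj.2, rfl⟩
        simp only [Finset.mem_insert, Finset.mem_singleton] at hu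
        rcases hu with rfl | rfl
        · exact ⟨(⊥ : Subgroup A).prod V₂, by rw [card_prod_sub, hV2, Subgroup.card_bot], fun hn => hn2 (normal_right hn)⟩
        · exact ⟨(⊤ : Subgroup A).prod V₂, by rw [card_prod_sub, hV2, Subgroup.card_top, card_A], fun hn => hn2 (normal_right hn)⟩
  unfold ie
  rw [hS, Set.ncard_coe_finset, Finset.card_image_of_injOn]
  · rw [Finset.card_union_of_disjoint, Finset.card_product, Finset.card_product, Finset.card_range, Nat.card_Icc]
    · have : U.card = 7 := rfl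
      rw [this, Nat.add_sub_cancel]
      rfl
    · rw [Finset.disjoint_left]
      rintro ⟨u, j⟩ h1 h2
      rw [Finset.mem_product] at h1 h2
      have h3 := h1.1
      have h4 := h2.1
      simp only [Finset.mem_insert, Finset.mem_singleton] at h4
      simp only at h3
      rcases h4 with rfl | rfl
      · exact absurd h3 (by decide)
      · exact absurd h3 (by decide)
  · have h7 : ∀ p ∈ Pset, ¬ 7 ∣ p.1 := by
      rintro ⟨u, j⟩ hp
      simp only [Pset, Finset.mem_union, Finset.mem_product, U, Finset.mem_insert, Finset.mem_singleton] at hp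
      simp only
      rcases hp with ⟨h, -⟩ | ⟨h, -⟩
      · rcases h with rfl | rfl | rfl | rfl | rfl | rfl | rfl <;> norm_num
      · rcases h with rfl | rfl <;> norm_num
    rintro ⟨u, j⟩ hp ⟨u', j'⟩ hp' h
    obtain ⟨h1, h2⟩ := inj_pow (h7 _ hp) (h7 _ hp') h
    exact Prod.ext h1 h2

end prod

/-! ### The 7-groups -/

section seven

variable (b : ℕ)

/-- The ring `ℤ/7^(b+2)`. -/
abbrev R : Type := ZMod (7 ^ (b + 2))

/-- The element `7^(b+1)`. -/
def cc : R b := 7 ^ (b + 1)

lemma seven_cc : 7 * cc b = 0 := by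
  unfold cc
  have h : ((7 ^ (b + 2) : ℕ) : ZMod (7 ^ (b + 2))) = 0 := ZMod.natCast_self _
  push_cast at h
  rw [← h]
  ring

lemma cc_cc : cc b * cc b = 0 := by
  have h := seven_cc b
  have : cc b * cc b = 7 * cc b * 7 ^ b := by unfold cc; ring
  rw [this, h, zero_mul]

/-- The embedding of `ℤ/7` as `7^(b+1) ℤ/7^(b+2)`. -/
def tau : ZMod 7 →+ R b := ZMod.lift 7 ⟨zmultiplesHom (R b) (cc b), by
  simp only [zmultiplesHom_apply]
  have := seven_cc b
  simpa [zsmul_eq_mul] using this⟩

lemma tau_natCast (n : ℕ) : tau b (n : ZMod 7) = n * cc b := by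
  have : ((n : ZMod 7)) = (((n : ℤ)) : ZMod 7) := by simp
  rw [this]
  unfold tau
  rw [ZMod.lift_coe]
  simp

lemma tau_eq (j : ZMod 7) : ∃ n : ℕ, tau b j = n * cc b := by
  refine ⟨j.val, ?_⟩
  rw [← tau_natCast, ZMod.natCast_zmod_val]

lemma tau_mul_tau (j k : ZMod 7) : tau b j * tau b k = 0 := by
  obtain ⟨n, hn⟩ := tau_eq b j
  obtain ⟨m, hm⟩ := tau_eq b k
  rw [hn, hm]
  linear_combination (n * m : R b) * cc_cc b

lemma seven_tau (j : ZMod 7) (r : R b) : 7 * (tau b j * r) = 0 := by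
  obtain ⟨n, hn⟩ := tau_eq b j
  rw [hn]
  linear_combination (n * r : R b) * seven_cc b

lemma mem_range_tau (i : R b) (h : 7 * i = 0) : ∃ j, tau b j = i := by
  have hval : ((7 * i.val : ℕ) : R b) = 0 := by
    push_cast
    rw [ZMod.natCast_zmod_val]
    exact h
  rw [ZMod.natCast_eq_zero_iff] at hval
  have h1 : 7 ^ (b + 1) ∣ i.val := by
    have : 7 * 7 ^ (b + 1) ∣ 7 * i.val := by
      have e : 7 * 7 ^ (b + 1) = 7 ^ (b + 2) := by ring
      rw [e]; exact hval
    exact Nat.dvd_of_mul_dvd_mul_left (by norm_num) this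
  obtain ⟨k, hk⟩ := h1
  refine ⟨(k : ZMod 7), ?_⟩
  rw [tau_natCast]
  have : i = ((i.val : ℕ) : R b) := (ZMod.natCast_zmod_val i).symm
  rw [this, hk]
  push_cast
  unfold cc
  ring

lemma tau_injective : Function.Injective (tau b) := by
  rw [injective_iff_map_eq_zero]
  intro j hj
  have h1 : tau b ((j.val : ℕ) : ZMod 7) = 0 := by rw [ZMod.natCast_zmod_val]; exact hj
  rw [tau_natCast] at h1
  have h2 : ((j.val * 7 ^ (b + 1) : ℕ) : R b) = 0 := by
    push_cast
    exact h1
  rw [ZMod.natCast_eq_zero_iff] at h2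
  have h3 : 7 ∣ j.val := by
    have e : 7 ^ (b + 2) = 7 * 7 ^ (b + 1) := by ring
    rw [e] at h2
    exact Nat.dvd_of_mul_dvd_mul_right (by positivity) h2
  have h4 : j.val < 7 := ZMod.val_lt j
  have h5 : j.val = 0 := by omega
  rwa [ZMod.val_eq_zero] at h5

/-- The modular group of order `7^(b+3)`. -/
@[ext] structure M where
  i : R b
  j : ZMod 7

namespace M

variable {b}

instance : Mul (M b) := ⟨fun x y => ⟨x.i + y.i + tau b x.j * y.i, x.j + y.j⟩⟩
instance : One (M b) := ⟨⟨0, 0⟩⟩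
instance : Inv (M b) := ⟨fun x => ⟨-x.i + tau b x.j * x.i, -x.j⟩⟩

@[simp] lemma mul_i (x y : M b) : (x * y).i = x.i + y.i + tau b x.j * y.i := rfl
@[simp] lemma mul_j (x y : M b) : (x * y).j = x.j + y.j := rfl
@[simp] lemma one_i : (1 : M b).i = 0 := rfl
@[simp] lemma one_j : (1 : M b).j = 0 := rfl
@[simp] lemma inv_i (x : M b) : (x⁻¹).i = -x.i + tau b x.j * x.i := rfl
@[simp] lemma inv_j (x : M b) : (x⁻¹).j = -x.j := rfl

instance : Group (M b) := Group.ofLeftAxioms
  (by
    intro x y z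
    ext
    · simp only [mul_i, mul_j, map_add]
      linear_combination (-z.i) * tau_mul_tau b x.j y.j
    · simp only [mul_j]; ring)
  (by
    intro x
    ext
    · simp
    · simp)
  (by
    intro x
    ext
    · simp only [mul_i, inv_i, inv_j, map_neg, one_i]
      ring
    · simp)

/-- The underlying set. -/
def equiv : M b ≃ R b × ZMod 7 := ⟨fun x => (x.i, x.j), fun p => ⟨p.1, p.2⟩, fun _ => rfl, fun _ => rfl⟩

instance : Finite (M b) := Finite.of_equiv _ (equiv (b := b)).symm

lemma card : Nat.card (M b) = 7 ^ (b + 3) := by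
  rw [Nat.card_congr equiv, Nat.card_prod, Nat.card_zmod, Nat.card_zmod]
  ring

end M

variable (m : ℕ)

/-- The 7-group with `m + 1` orders of non-normal subgroups. -/
abbrev B7 : Type := M b × Multiplicative (ZMod (7 ^ m))

lemma card_B7 : Nat.card (B7 b m) = 7 ^ (b + m + 3) := by
  have h : Nat.card (Multiplicative (ZMod (7 ^ m))) = 7 ^ m := by
    rw [Nat.card_congr Multiplicative.toAdd, Nat.card_zmod]
  rw [Nat.card_prod, M.card, h]
  ring

variable {b m}

/-- The subgroup of order seven containing all commutators. -/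
def N (b m : ℕ) : Subgroup (B7 b m) where
  carrier := {x | x.1.j = 0 ∧ 7 * x.1.i = 0 ∧ x.2 = 1}
  one_mem' := by simp
  mul_mem' := by
    rintro x y ⟨h1, h2, h3⟩ ⟨h4, h5, h6⟩
    refine ⟨by simp [h1, h4], ?_, by simp [h3, h6]⟩
    simp only [Prod.fst_mul, M.mul_i, h1, map_zero]
    linear_combination h2 + h5
  inv_mem' := by
    rintro x ⟨h1, h2, h3⟩
    refine ⟨by simp [h1], ?_, by simp [h3]⟩
    simp only [Prod.fst_inv, M.inv_i, h1, map_zero]
    linear_combination -h2

lemma card_N : Nat.card (N b m) = 7 := by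
  have e : ZMod 7 ≃ N b m := Equiv.ofBijective
    (fun j => ⟨(⟨tau b j, 0⟩, 1), rfl, by have := seven_tau b j 1; rwa [mul_one] at this, rfl⟩) ⟨by
      intro j k h
      have h1 := congrArg (fun z : N b m => z.1.1.i) h
      exact tau_injective b h1, by
      rintro ⟨x, h1, h2, h3⟩
      obtain ⟨j, hj⟩ := mem_range_tau b _ h2
      refine ⟨j, Subtype.ext ?_⟩
      refine Prod.ext ?_ h3.symm
      exact M.ext hj h1.symm⟩
  rw [← Nat.card_congr e, Nat.card_zmod]

lemma comm_mem (g v : B7 b m) : g * v * g⁻¹ * v⁻¹ ∈ N b m := by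
  have hz : ∃ z ∈ N b m, g * v = z * (v * g) := by
    refine ⟨(⟨tau b g.1.j * v.1.i - tau b v.1.j * g.1.i, 0⟩, 1), ⟨rfl, ?_, rfl⟩, ?_⟩
    · have h1 := seven_tau b g.1.j v.1.i
      have h2 := seven_tau b v.1.j g.1.i
      simp only
      linear_combination h1 - h2
    · refine Prod.ext ?_ ?_
      · apply M.ext
        · simp only [Prod.fst_mul, M.mul_i, map_zero]
          ring
        · simp only [Prod.fst_mul, M.mul_j]
          ring
      · simp only [Prod.snd_mul, one_mul]
        exact mul_comm _ _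
  obtain ⟨z, hz1, hz2⟩ := hz
  rw [hz2]
  have : z * (v * g) * g⁻¹ * v⁻¹ = z := by group
  rw [this]
  exact hz1

lemma normal_of_N_le (V : Subgroup (B7 b m)) (h : N b m ≤ V) : V.Normal := by
  constructor
  intro v hv g
  have h1 := mul_mem (h (comm_mem g v)) hv
  rwa [inv_mul_cancel_right] at h1

lemma normal_of_inter (V : Subgroup (B7 b m)) (v : B7 b m) (hv : v ∈ V) (hvN : v ∈ N b m) (hne : v ≠ 1) :
    V.Normal := by
  have : Fact (Nat.card (N b m)).Prime := ⟨by rw [card_N]; norm_num⟩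
  rcases Subgroup.eq_bot_or_eq_top_of_prime_card (V.subgroupOf (N b m)) with h | h
  · exfalso
    have h1 : (⟨v, hvN⟩ : N b m) ∈ V.subgroupOf (N b m) := Subgroup.mem_subgroupOf.mpr hv
    rw [h, Subgroup.mem_bot] at h1
    exact hne (congrArg Subtype.val h1)
  · exact normal_of_N_le V (Subgroup.subgroupOf_eq_top.mp h)

/-- A subgroup meeting the cyclic subgroup `⟨x⟩` nontrivially is normal. -/
lemma normal_of_inter' (V : Subgroup (B7 b m)) (v : B7 b m) (hv : v ∈ V) (h1 : v.1.j = 0) (h2 : v.2 = 1)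
    (hne : v ≠ 1) : V.Normal := by
  have hpow : ∀ k : ℕ, (v ^ k).1.j = 0 ∧ (v ^ k).2 = 1 ∧ (v ^ k).1.i = k * v.1.i := by
    intro k
    induction k with
    | zero => simp
    | succ k ih =>
      obtain ⟨a1, a2, a3⟩ := ih
      refine ⟨?_, ?_, ?_⟩
      · rw [pow_succ, Prod.fst_mul, M.mul_j, a1, h1, add_zero]
      · rw [pow_succ, Prod.snd_mul, a2, h2, one_mul]
      · rw [pow_succ, Prod.fst_mul, M.mul_i, a1, map_zero, a3]
        push_cast
        ring
  have hv7 : ∃ s, orderOf v = 7 ^ s := by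
    have hd : orderOf v ∣ 7 ^ (b + m + 3) := by rw [← card_B7]; exact orderOf_dvd_natCard v
    obtain ⟨s, -, hs⟩ := (Nat.dvd_prime_pow (by norm_num)).mp hd
    exact ⟨s, hs⟩
  obtain ⟨s, hs⟩ := hv7
  have hs0 : s ≠ 0 := by
    rintro rfl
    rw [pow_zero, orderOf_eq_one_iff] at hs
    exact hne hs
  obtain ⟨r, rfl⟩ := Nat.exists_eq_succ_of_ne_zero hs0
  have hw : v ^ (7 ^ r) ≠ 1 := by
    intro h
    have := orderOf_dvd_of_pow_eq_one h
    rw [hs] at this
    have := Nat.le_of_dvd (by positivity) this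
    have h3 : 7 ^ r < 7 ^ (r + 1) := Nat.pow_lt_pow_right (by norm_num) (by omega)
    exact absurd this (not_le.mpr h3)
  refine normal_of_inter V (v ^ (7 ^ r)) (pow_mem hv _) ⟨(hpow _).1, ?_, (hpow _).2.1⟩ hw
  have h3 : v ^ (7 * 7 ^ r) = 1 := by
    have : 7 * 7 ^ r = 7 ^ (r + 1) := by ring
    rw [this, ← hs]
    exact pow_orderOf_eq_one v
  have h4 := (hpow (7 * 7 ^ r)).2.2
  rw [h3] at h4
  rw [(hpow (7 ^ r)).2.2]
  push_cast at h4 ⊢
  simp only [Prod.fst_one, M.one_i] at h4
  linear_combination -h4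

/-- The subgroup of elements `(0, t)`. -/
def D (b : ℕ) : Subgroup (M b) where
  carrier := {x | x.i = 0}
  one_mem' := rfl
  mul_mem' := by
    intro x y hx hy
    simp only [Set.mem_ofPred_eq] at hx hy ⊢
    simp [hx, hy]
  inv_mem' := by
    intro x hx
    simp only [Set.mem_ofPred_eq] at hx ⊢
    simp [hx]

lemma card_D : Nat.card (D b) = 7 := by
  have e : ZMod 7 ≃ D b := Equiv.ofBijective (fun j => ⟨⟨0, j⟩, rfl⟩) ⟨by
    intro j k h
    exact congrArg (fun z : D b => z.1.j) h, by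
    rintro ⟨x, hx⟩
    exact ⟨x.j, Subtype.ext (M.ext hx.symm rfl)⟩⟩
  rw [← Nat.card_congr e, Nat.card_zmod]

lemma nonnormal_iff (n : ℕ) : (∃ V : Subgroup (B7 b m), Nat.card V = n ∧ ¬ V.Normal) ↔
    ∃ j, 1 ≤ j ∧ j ≤ m + 1 ∧ n = 7 ^ j := by
  constructor
  · rintro ⟨V, hV, hVn⟩
    have h2 : Nat.card V ∣ 7 ^ (b + m + 3) := card_B7 b m ▸ Subgroup.card_subgroup_dvd_card V
    obtain ⟨j, -, hj2⟩ := (Nat.dvd_prime_pow (by norm_num)).mp h2
    refine ⟨j, ?_, ?_, by rw [← hV, hj2]⟩
    · by_contra hcon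
      have h0 : j = 0 := by omega
      rw [h0, pow_zero, Subgroup.card_eq_one] at hj2
      apply hVn
      rw [hj2]
      infer_instance
    · have hinj : Function.Injective (fun v : V => ((v : B7 b m).1.j, (v : B7 b m).2)) := by
        intro v w hvw
        simp only [Prod.mk.injEq] at hvw
        by_contra hne
        apply hVn
        refine normal_of_inter' V ((v : B7 b m) * (w : B7 b m)⁻¹) (mul_mem v.2 (inv_mem w.2)) ?_ ?_ ?_
        · simp [hvw.1]
        · simp [hvw.2]
        · intro h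
          exact hne (Subtype.ext (mul_inv_eq_one.mp h))
      have h3 := Nat.card_le_card_of_injective _ hinj
      have h4 : Nat.card (Multiplicative (ZMod (7 ^ m))) = 7 ^ m := by
        rw [Nat.card_congr Multiplicative.toAdd, Nat.card_zmod]
      rw [Nat.card_prod, Nat.card_zmod, h4, hj2] at h3
      have h5 : 7 ^ j ≤ 7 ^ (m + 1) := by
        rw [pow_succ, mul_comm]; exact h3
      exact (Nat.pow_le_pow_iff_right (by norm_num)).mp h5
  · rintro ⟨j, hj1, hj2, rfl⟩
    have : Fact (Nat.Prime 7) := ⟨by norm_num⟩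
    have h4 : Nat.card (Multiplicative (ZMod (7 ^ m))) = 7 ^ m := by
      rw [Nat.card_congr Multiplicative.toAdd, Nat.card_zmod]
    obtain ⟨L, hL⟩ := Sylow.exists_subgroup_card_pow_prime (G := Multiplicative (ZMod (7 ^ m))) 7 (n := j - 1)
      (by rw [h4]; exact pow_dvd_pow 7 (by omega))
    refine ⟨(D b).prod L, ?_, ?_⟩
    · rw [Nat.card_congr (Subgroup.prodEquiv (D b) L).toEquiv, Nat.card_prod, card_D, hL, ← pow_succ']
      congr 1
      omega
    · intro hn
      have h1 : (((⟨0, 1⟩ : M b), 1) : B7 b m) ∈ (D b).prod L := ⟨rfl, one_mem _⟩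
      have h2 := (hn.conj_mem _ h1 (⟨1, 0⟩, 1)).1
      have h3 : tau b 1 = 0 := by
        have h5 : ((⟨1, 0⟩ : M b) * ⟨0, 1⟩ * (⟨1, 0⟩ : M b)⁻¹).i = 0 := h2
        simp only [M.mul_i, M.mul_j, M.inv_i, map_zero, zero_add] at h5
        linear_combination -h5
      have h6 := tau_injective b (h3.trans (map_zero (tau b)).symm)
      exact one_ne_zero h6

end seven

/-! ### Realising all large numbers -/

lemma not_solvable_A : ¬ Group.IsSolvable A := by
  intro h
  have hs := simple_A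
  have hnt : Nontrivial A := hs.toNontrivial
  have h1 := Group.IsSolvable.commutator_lt_top_of_nontrivial A
  rw [commutator_alternatingGroup_eq_top (by simp)] at h1
  exact lt_irrefl _ h1

lemma not_solvable_prod (B : Type) [Group B] : ¬ Group.IsSolvable (A × B) := by
  intro h
  exact not_solvable_A (Group.isSolvable_of_isSolvable_injective (f := MonoidHom.inl A B)
    (fun a b hab => congrArg Prod.fst hab))

lemma not_simple_prod (B : Type) [Group B] [Finite B] (hB : Nat.card B ≠ 1) : ¬ IsSimpleGroup (A × B) := by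
  intro h
  rcases h.eq_bot_or_eq_top_of_normal ((⊤ : Subgroup A).prod (⊥ : Subgroup B)) (Subgroup.prod_normal _ _) with h1 | h1
  · have h2 := card_prod_sub (⊤ : Subgroup A) (⊥ : Subgroup B)
    rw [h1, Subgroup.card_bot, Subgroup.card_top, card_A] at h2
    simp at h2
  · have h2 := card_prod_sub (⊤ : Subgroup A) (⊥ : Subgroup B)
    rw [h1, Subgroup.card_top, Subgroup.card_top, Subgroup.card_bot, Nat.card_prod, card_A] at h2
    omega

lemma realise (k : ℕ) (hk : 75 ≤ k) : ∃ (G : Type) (_ : Group G) (_ : Finite G),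
    ie G = k ∧ ¬ Group.IsSolvable G ∧ ¬ IsSimpleGroup G := by
  obtain ⟨d, e, he, hd, hke⟩ : ∃ d e, e ≤ 6 ∧ 8 ≤ d ∧ k = 7 * (d + 1) + 2 * e :=
    ⟨(k - 2 * ((4 * k) % 7)) / 7 - 1, (4 * k) % 7, by omega, by omega, by omega⟩
  rcases Nat.eq_zero_or_pos e with h0 | h0
  · subst h0
    have hcard : Nat.card (Multiplicative (ZMod (7 ^ d))) = 7 ^ d := by
      rw [Nat.card_congr Multiplicative.toAdd, Nat.card_zmod]
    refine ⟨A × Multiplicative (ZMod (7 ^ d)), inferInstance, inferInstance, ?_, not_solvable_prod _, not_simple_prod _ ?_⟩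
    · rw [hke]
      apply ie_prod d 0 hcard
      intro n
      constructor
      · rintro ⟨V, -, hV⟩
        exact absurd (Subgroup.normal_of_isMulCommutative V) hV
      · rintro ⟨j, h1, h2, -⟩
        omega
    · rw [hcard]
      have : 7 ^ 1 ≤ 7 ^ d := Nat.pow_le_pow_right (by norm_num) (by omega)
      omega
  · obtain ⟨m, rfl⟩ := Nat.exists_eq_succ_of_ne_zero h0.ne'
    obtain ⟨b, rfl⟩ : ∃ b, d = b + m + 3 := ⟨d - m - 3, by omega⟩
    refine ⟨A × B7 b m, inferInstance, inferInstance, ?_, not_solvable_prod _, not_simple_prod _ ?_⟩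
    · rw [hke]
      exact ie_prod (b + m + 3) (m + 1) (card_B7 b m) nonnormal_iff
    · rw [card_B7]
      have : 7 ^ 1 ≤ 7 ^ (b + m + 3) := Nat.pow_le_pow_right (by norm_num) (by omega)
      omega

/-- `k` is a soluble group-theoretic number. -/
def SolubleNumber (k : ℕ) : Prop :=
  0 < k ∧ ∀ (G : Type) [Group G] [Finite G], ie G = k → Group.IsSolvable G

/-- `k` is an absolutely simple group-theoretic number. -/
def AbsolutelySimpleNumber (k : ℕ) : Prop :=
  0 < k ∧ (∃ (G : Type) (_ : Group G) (_ : Finite G), IsSimpleGroup G ∧ ie G = k) ∧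
    ∀ (G : Type) [Group G] [Finite G], ie G = k → Group.IsSolvable G ∨ IsSimpleGroup G

/-- The sets of soluble and of absolutely simple group-theoretic numbers are finite. -/
theorem result : {k | SolubleNumber k}.Finite ∧ {k | AbsolutelySimpleNumber k}.Finite := by
  constructor
  · refine (Set.finite_lt_nat 75).subset ?_
    rintro k ⟨-, hk⟩
    by_contra hcon
    obtain ⟨G, _, _, h1, h2, -⟩ := realise k (by simpa using hcon)
    exact h2 (hk G h1)
  · refine (Set.finite_lt_nat 75).subset ?_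
    rintro k ⟨-, -, hk⟩
    by_contra hcon
    obtain ⟨G, _, _, h1, h2, h3⟩ := realise k (by simpa using hcon)
    exact (hk G h1).elim h2 h3

end Pool.Agent.Results.MP_927db0_al.FiniteSets
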